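import Pool.Agent.W740.TC.Final

set_option autoImplicit false

open scoped Manifold ContDiff Topology
open Set Filter

namespace Pool.Agent.Results.MP_5c499f_an.OneSidedAbelianToral

open Pool.Agent.H721R2 Pool.Agent.H789R2.AN Pool.Agent.W740.TC
open Pool.Agent.H779R2.To (HypMat)

/-- **A one-sided criterion for conjugacy to a hyperbolic toral automorphism.**
Let `f` be a `C¹` Anosov diffeomorphism of a closed connected smooth manifold `M`.  The following
are equivalent.
* There are a continuous map `φ : M → ℝᵏ/ℤᵏ` and an integer `k × k` matrix `A` (any matrix: `φ` and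
  `A` exist for every `f`, with `φ` inducing the largest free abelian cover of `M`) such that
  `φ ∘ f` is homotopic to `A ∘ φ` and the unstable leaves are polynomially properly displaced by `φ`
  (`PolyDisp f.symm φ`): for every neighbourhood `𝒰` of the diagonal there are constants `a`, `b`
  such that, if `γ` is a path in an unstable leaf and `θ` is a lift to `ℝᵏ` of the path `φ ∘ γ`,
  then `f⁻ⁿ(γ 0)` and `f⁻ⁿ(γ 1)` are `𝒰`-close for all `n ≥ a log (1 + ‖θ 1 - θ 0‖) + b`.
* `f` is topologically conjugate to a hyperbolic toral automorphism: there are a homeomorphism `h`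
  from `M` onto a torus `(ℝ/ℤ)^m` and an integer matrix `A` with determinant `±1` and without
  eigenvalues of modulus one such that `h ∘ f = A ∘ h`. -/
theorem result (E : Type*) [NormedAddCommGroup E] [NormedSpace ℝ E] [FiniteDimensional ℝ E]
    (M : Type*) [TopologicalSpace M] [T2Space M] [CompactSpace M] [ConnectedSpace M]
    [ChartedSpace E M] [IsManifold 𝓘(ℝ, E) ∞ M] (f : Diffeomorph 𝓘(ℝ, E) 𝓘(ℝ, E) M M 1)
    (Es Eu : ∀ x : M, Submodule ℝ (TangentSpace 𝓘(ℝ, E) x)) (hA : IsAnosov f Es Eu) :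
    (∃ (k : ℕ) (A : Matrix (Fin k) (Fin k) ℤ) (φ : C(M, Fin k → AddCircle (1 : ℝ))),
      (φ.comp ⟨f, f.continuous⟩).Homotopic ((torusMap A).comp φ) ∧ PolyDisp f.symm φ) ↔
    ∃ (m : ℕ) (A : Matrix (Fin m) (Fin m) ℤ) (h : M ≃ₜ (Fin m → AddCircle (1 : ℝ))),
      IsUnit A.det ∧ HypMat A ∧ ∀ x i, h (f x) i = ∑ j, A i j • h x j :=
  ⟨fun ⟨_, A, φ, hφ, hU⟩ => (man_homotopy f Es Eu hA A φ hφ hU).2.1, man_converse f⟩

end Pool.Agent.Results.MP_5c499f_an.OneSidedAbelianToral
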