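import Pool.Agent.W740.TU.Sym

set_option autoImplicit false

open scoped Manifold ContDiff Topology
open Set Filter

namespace Pool.Agent.Results.MP_5c499f_an.TransverseTorusMapIff

open Pool.Agent.H721R2 Pool.Agent.H789R2.AN Pool.Agent.W740.TU
open Pool.Agent.H779R2.To (HypMat)

/-- **A topological characterization of the Anosov diffeomorphisms that are conjugate to hyperbolic
toral automorphisms.**
Let `f` be a `C¹` Anosov diffeomorphism of a closed connected smooth manifold `M`, with stable and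
unstable bundles of ranks `s` and `u`.  The following are equivalent.
* `f` is topologically conjugate to a hyperbolic toral automorphism: there are a homeomorphism `h`
  from `M` onto a torus `(ℝ/ℤ)^m` and an integer matrix `A` with determinant `±1` and without
  eigenvalues of modulus one such that `h ∘ f = A ∘ h`.
* There is a continuous map `p : M → (ℝ/ℤ)ᵘ` that is injective on the local unstable sets of some
  size (`UnstInj f.symm p`): for some neighbourhood `𝒰` of the diagonal one has `p x ≠ p y` if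
  `x ≠ y` and `f⁻ⁿ x`, `f⁻ⁿ y` are `𝒰`-close for all `n ≥ 0`.
* There is a continuous map `p : M → (ℝ/ℤ)ˢ` that is injective on the local stable sets of some
  size (`UnstInj f p`). -/
theorem result (E : Type*) [NormedAddCommGroup E] [NormedSpace ℝ E] [FiniteDimensional ℝ E]
    (M : Type*) [TopologicalSpace M] [T2Space M] [CompactSpace M] [ConnectedSpace M]
    [ChartedSpace E M] [IsManifold 𝓘(ℝ, E) ∞ M] (f : Diffeomorph 𝓘(ℝ, E) 𝓘(ℝ, E) M M 1)
    (Es Eu : ∀ x : M, Submodule ℝ (TangentSpace 𝓘(ℝ, E) x)) (hA : IsAnosov f Es Eu)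
    (s u : ℕ) (hs : ∀ x, Module.finrank ℝ (Es x) = s) (hu : ∀ x, Module.finrank ℝ (Eu x) = u) :
    ((∃ (m : ℕ) (A : Matrix (Fin m) (Fin m) ℤ) (h : M ≃ₜ (Fin m → AddCircle (1 : ℝ))),
      IsUnit A.det ∧ HypMat A ∧ ∀ x i, h (f x) i = ∑ j, A i j • h x j) ↔
      ∃ p : C(M, Fin u → AddCircle (1 : ℝ)), UnstInj f.symm p) ∧
    ((∃ (m : ℕ) (A : Matrix (Fin m) (Fin m) ℤ) (h : M ≃ₜ (Fin m → AddCircle (1 : ℝ))),
      IsUnit A.det ∧ HypMat A ∧ ∀ x i, h (f x) i = ∑ j, A i j • h x j) ↔
      ∃ p : C(M, Fin s → AddCircle (1 : ℝ)), UnstInj f p) :=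
  ⟨⟨fun h => (man_both f Es Eu hA hs hu h).1,
      fun h => (man_either f Es Eu hA hs hu (Or.inl h)).2.1⟩,
    ⟨fun h => (man_both f Es Eu hA hs hu h).2,
      fun h => (man_either f Es Eu hA hs hu (Or.inr h)).2.1⟩⟩

end Pool.Agent.Results.MP_5c499f_an.TransverseTorusMapIff
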